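import Pool.Agent.Helper35.CWS.StA

set_option autoImplicit false

namespace Pool.Agent.Helper51.CWS

open Set Topology Metric Pool.Agent.Helper35.CWS

variable {Y : Type} [TopologicalSpace Y] [T2Space Y] {D : Set Y} [RelCWComplex (univ : Set Y) D]

private theorem cellData (n : ℕ) (i : RelCWComplex.cell (univ : Set Y) n) :
    Cell n (RelCWComplex.map (C := (univ : Set Y)) n i) := by
  refine ⟨RelCWComplex.continuousOn n i, ?_, ?_⟩
  · have := (RelCWComplex.map (C := (univ : Set Y)) n i).injOn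
    rwa [RelCWComplex.source_eq] at this
  · intro z hz w hw h
    have h1 : RelCWComplex.map (C := (univ : Set Y)) n i z ∈ RelCWComplex.openCell (C := (univ : Set Y)) n i :=
      ⟨z, hz, rfl⟩
    have h2 : RelCWComplex.map (C := (univ : Set Y)) n i w ∈ RelCWComplex.cellFrontier (C := (univ : Set Y)) n i :=
      ⟨w, hw, rfl⟩
    have h3 := RelCWComplex.cellFrontier_subset_skeletonLT n i h2
    rw [← h] at h3
    exact Set.disjoint_left.1 (RelCWComplex.disjoint_skeletonLT_openCell (j := i) le_rfl) h3 h1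

private theorem frontier_lt {y : Y} {n m : ℕ} {i : RelCWComplex.cell (univ : Set Y) n}
    {j : RelCWComplex.cell (univ : Set Y) m} (h1 : y ∈ RelCWComplex.openCell n i)
    (h2 : y ∈ RelCWComplex.cellFrontier m j) : n < m := by
  by_contra hle
  have h3 := RelCWComplex.cellFrontier_subset_skeletonLT m j h2
  exact Set.disjoint_left.1 (RelCWComplex.disjoint_skeletonLT_openCell (j := i)
    (by exact_mod_cast not_lt.1 hle)) h3 h1

private theorem closed_mem {y : Y} {n m : ℕ} {i : RelCWComplex.cell (univ : Set Y) n}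
    {j : RelCWComplex.cell (univ : Set Y) m} (h1 : y ∈ RelCWComplex.openCell n i)
    (h2 : y ∈ RelCWComplex.closedCell m j)
    (hne : (⟨n, i⟩ : Σ n, RelCWComplex.cell (univ : Set Y) n) ≠ ⟨m, j⟩) :
    y ∈ RelCWComplex.cellFrontier m j := by
  rw [← RelCWComplex.cellFrontier_union_openCell_eq_closedCell] at h2
  rcases h2 with h2 | h2
  · exact h2
  · exact absurd h2 (Set.disjoint_left.1 (RelCWComplex.disjoint_openCell_of_ne hne) h1)

private theorem disj {n m : ℕ} {i : RelCWComplex.cell (univ : Set Y) n}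
    {j : RelCWComplex.cell (univ : Set Y) m} (hnm : m ≤ n)
    (hne : (⟨n, i⟩ : Σ n, RelCWComplex.cell (univ : Set Y) n) ≠ ⟨m, j⟩) :
    Disjoint (RelCWComplex.openCell n i) (RelCWComplex.closedCell m j) := by
  rw [Set.disjoint_left]
  intro y h1 h2
  have h3 := frontier_lt h1 (closed_mem h1 h2 hne)
  omega

private theorem finish (hIND : StIND) {V : Set Y} {y₀ : Y}
    {F P : Finset (Σ n, RelCWComplex.cell (univ : Set Y) n)} {A : Set Y} (hV : IsOpen V)
    (hcov : ∀ y ∈ V, ∃ c ∈ F, y ∈ RelCWComplex.openCell c.1 c.2) (hPF : P ⊆ F) (hA : IsClosed A)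
    (hP : ∀ c ∈ P, RelCWComplex.openCell c.1 c.2 ⊆ A)
    (hFP : ∀ c ∈ F, c ∉ P → Disjoint (RelCWComplex.openCell c.1 c.2) A) (hy : y₀ ∈ A)
    (hS : Start A V y₀) :
    ∃ (W : Set Y) (ε : ℝ) (Φ : ℝ → Y → Y), IsOpen W ∧ y₀ ∈ W ∧ SF univ W ε Φ ∧
      ∀ s ∈ Ioc (0 : ℝ) ε, Φ s y₀ ≠ y₀ := by
  obtain ⟨W, ε, Ψ, hW, hWV, hyW, hSF, hmove⟩ := hS
  obtain ⟨W', Φ, hW', hsub, hSF', hag⟩ := hIND Y D V F P A W ε Ψ hV hcov hPF hA hW hWV hP hFP hSF
  refine ⟨W', ε, Φ, hW', hsub ⟨hy, hyW⟩, hSF', fun s hs => ?_⟩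
  rw [hag y₀ ⟨hy, hyW⟩ s (Ioc_subset_Icc_self hs)]
  exact hmove s hs

private theorem sphere_const {m : ℕ} (hm : 2 ≤ m) {Q : (Fin m → ℝ) → Y} {V : Set Y} {y₀ : Y}
    (hQ : ContinuousOn Q (closedBall 0 1)) (hV : IsOpen V) (hy : y₀ ∈ V)
    (hs : ∀ w ∈ sphere (0 : Fin m → ℝ) 1, Q w ∈ V → Q w = y₀)
    (hw : ∃ w ∈ sphere (0 : Fin m → ℝ) 1, Q w = y₀) :
    ∀ w ∈ sphere (0 : Fin m → ℝ) 1, Q w = y₀ := by
  have hconn : IsConnected (sphere (0 : Fin m → ℝ) 1) := by
    refine isConnected_sphere ?_ 0 zero_le_one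
    rw [rank_fun']
    simp only [Fintype.card_fin]
    exact_mod_cast hm
  have : PreconnectedSpace (sphere (0 : Fin m → ℝ) 1) :=
    isPreconnected_iff_preconnectedSpace.1 hconn.isPreconnected
  have hq : Continuous (fun w : sphere (0 : Fin m → ℝ) 1 => Q w.1) :=
    continuousOn_iff_continuous_restrict.1 (hQ.mono sphere_subset_closedBall)
  have hclopen : IsClopen ((fun w : sphere (0 : Fin m → ℝ) 1 => Q w.1) ⁻¹' {y₀}) := by
    refine ⟨isClosed_singleton.preimage hq, ?_⟩
    have : ((fun w : sphere (0 : Fin m → ℝ) 1 => Q w.1) ⁻¹' {y₀}) =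
        (fun w : sphere (0 : Fin m → ℝ) 1 => Q w.1) ⁻¹' V := by
      ext w
      constructor
      · intro h
        have h' : Q w.1 = y₀ := h
        show Q w.1 ∈ V
        rw [h']
        exact hy
      · intro h
        exact hs w.1 w.2 h
    rw [this]
    exact hV.preimage hq
  obtain ⟨w1, hw1, hw1'⟩ := hw
  have huniv := hclopen.eq_univ ⟨⟨w1, hw1⟩, hw1'⟩
  intro w hw
  have : (⟨w, hw⟩ : sphere (0 : Fin m → ℝ) 1) ∈
      ((fun w : sphere (0 : Fin m → ℝ) 1 => Q w.1) ⁻¹' {y₀}) := by
    rw [huniv]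
    trivial
  exact this

private theorem sphere_one {w w1 : Fin 1 → ℝ} (hw : w ∈ sphere (0 : Fin 1 → ℝ) 1)
    (hw1 : w1 ∈ sphere (0 : Fin 1 → ℝ) 1) : w = w1 ∨ w = -w1 := by
  have h : ∀ v : Fin 1 → ℝ, v ∈ sphere (0 : Fin 1 → ℝ) 1 → |v 0| = 1 := by
    intro v hv
    rw [mem_sphere_zero_iff_norm, Pi.norm_def] at hv
    simpa using hv
  have e1 := h w hw
  have e2 := h w1 hw1
  rw [← e2] at e1
  rcases abs_eq_abs.1 e1 with h1 | h1
  · left
    funext i
    rw [Subsingleton.elim i 0]
    exact h1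
  · right
    funext i
    rw [Subsingleton.elim i 0]
    exact h1

theorem hMOV : StSTAR → StIND → StCHA → StCHB → StCHC → StMOV := by
  classical
  intro hSTAR hIND hCHA hCHB hCHC Y _ _ _ D _ y₀ hy₀ hiso
  obtain ⟨V, F, hV, hyV, hVD, hcov, hcl⟩ := hSTAR Y D y₀ hy₀
  obtain ⟨⟨n, i⟩, hc0F, hyc0⟩ := hcov y₀ hyV
  simp only at hyc0
  have hdim : ∀ c ∈ F, c ≠ ⟨n, i⟩ → n < c.1 := by
    intro c hc hne
    obtain ⟨m, j⟩ := c
    exact frontier_lt hyc0 (closed_mem hyc0 (hcl _ hc) (Ne.symm hne))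
  rcases Nat.eq_zero_or_pos n with hn | hn
  · -- a vertex
    subst hn
    have hopen0 : RelCWComplex.openCell (C := (univ : Set Y)) 0 i = {y₀} := by
      rw [RelCWComplex.openCell_zero_eq_singleton] at hyc0 ⊢
      rw [mem_singleton_iff.1 hyc0]
    have hne : (F.filter (fun c => c ≠ ⟨0, i⟩)).Nonempty := by
      rw [Finset.nonempty_iff_ne_empty]
      intro hemp
      apply hiso
      have hVs : V = {y₀} := by
        apply Set.Subset.antisymm
        · intro y hy
          obtain ⟨c, hc, hyc⟩ := hcov y hy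
          by_cases hcc : c = ⟨0, i⟩
          · subst hcc
            simp only at hyc
            rw [hopen0] at hyc
            exact hyc
          · exfalso
            have : c ∈ F.filter (fun c => c ≠ ⟨0, i⟩) := Finset.mem_filter.2 ⟨hc, hcc⟩
            rw [hemp] at this
            exact absurd this (Finset.notMem_empty _)
        · rintro y rfl
          exact hyV
      rw [← hVs]
      exact hV
    obtain ⟨⟨m, j⟩, hc1, hmin⟩ := Finset.exists_min_image _ (fun c : (Σ n, RelCWComplex.cell (univ : Set Y) n) => c.1) hne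
    rw [Finset.mem_filter] at hc1
    simp only at hmin
    have hm : 0 < m := hdim _ hc1.1 hc1.2
    have hycl : y₀ ∈ RelCWComplex.closedCell (C := (univ : Set Y)) m j := hcl _ hc1.1
    have hyfr : y₀ ∈ RelCWComplex.cellFrontier (C := (univ : Set Y)) m j :=
      closed_mem hyc0 hycl (Ne.symm hc1.2)
    have hcell := cellData (Y := Y) m j
    have hsph : ∀ w ∈ sphere (0 : Fin m → ℝ) 1, RelCWComplex.map (C := (univ : Set Y)) m j w ∈ V →
        RelCWComplex.map (C := (univ : Set Y)) m j w = y₀ := by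
      intro w hw hwV
      obtain ⟨⟨m', j'⟩, hc', hwc'⟩ := hcov _ hwV
      simp only at hwc'
      have hlt : m' < m := frontier_lt hwc' ⟨w, hw, rfl⟩
      by_cases hcc : (⟨m', j'⟩ : Σ n, RelCWComplex.cell (univ : Set Y) n) = ⟨0, i⟩
      · cases hcc
        rw [hopen0] at hwc'
        exact hwc'
      · exfalso
        have := hmin _ (Finset.mem_filter.2 ⟨hc', hcc⟩)
        simp only at this
        omega
    have hex : ∃ w ∈ sphere (0 : Fin m → ℝ) 1, RelCWComplex.map (C := (univ : Set Y)) m j w = y₀ := by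
      obtain ⟨w, hw, h⟩ := hyfr
      exact ⟨w, hw, h⟩
    have hstart : Start (RelCWComplex.map (C := (univ : Set Y)) m j '' closedBall 0 1) V y₀ := by
      rcases Nat.lt_or_ge 1 m with h2 | h1
      · exact hCHB Y m _ y₀ V hm hcell (sphere_const h2 hcell.cont hV hyV hsph hex) hV hyV
      · have hm1 : m = 1 := by omega
        subst hm1
        obtain ⟨w1, hw1, hw1y⟩ := hex
        by_cases hneg : RelCWComplex.map (C := (univ : Set Y)) 1 j (-w1) = y₀
        · refine hCHB Y 1 _ y₀ V hm hcell ?_ hV hyV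
          intro w hw
          rcases sphere_one hw hw1 with h | h
          · rw [h, hw1y]
          · rw [h, hneg]
        · have := hCHC Y (RelCWComplex.map (C := (univ : Set Y)) 1 j) w1 V hcell hw1
            (by rw [hw1y]; exact hneg) hV (by rw [hw1y]; exact hyV)
          rw [hw1y] at this
          exact this
    refine finish hIND (P := {⟨0, i⟩, ⟨m, j⟩}) hV hcov ?_ (RelCWComplex.isClosed_closedCell (n := m) (i := j)) ?_ ?_ hycl hstart
    · intro c hc
      rw [Finset.mem_insert, Finset.mem_singleton] at hc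
      rcases hc with rfl | rfl
      · exact hc0F
      · exact hc1.1
    · intro c hc
      rw [Finset.mem_insert, Finset.mem_singleton] at hc
      rcases hc with rfl | rfl
      · simp only
        rw [hopen0]
        rintro y rfl
        exact hycl
      · exact RelCWComplex.openCell_subset_closedCell m j
    · intro c hc hcP
      rw [Finset.mem_insert, Finset.mem_singleton, not_or] at hcP
      obtain ⟨m', j'⟩ := c
      refine disj ?_ hcP.2
      exact hmin _ (Finset.mem_filter.2 ⟨hc, hcP.1⟩)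
  · -- an interior point of a cell of positive dimension
    obtain ⟨z₀, hz₀, hz₀y⟩ := hyc0
    have hcell := cellData (Y := Y) n i
    have hstart := hCHA Y n (RelCWComplex.map (C := (univ : Set Y)) n i) z₀ V hn hcell hz₀ hV (by rw [hz₀y]; exact hyV)
    rw [hz₀y] at hstart
    refine finish hIND (P := {⟨n, i⟩}) hV hcov ?_ (RelCWComplex.isClosed_closedCell (n := n) (i := i)) ?_ ?_
      (hcl _ hc0F) hstart
    · intro c hc
      rw [Finset.mem_singleton] at hc
      rw [hc]
      exact hc0F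
    · intro c hc
      rw [Finset.mem_singleton] at hc
      subst hc
      exact RelCWComplex.openCell_subset_closedCell n i
    · intro c hc hcP
      rw [Finset.mem_singleton] at hcP
      have h1 := hdim c hc hcP
      obtain ⟨m', j'⟩ := c
      exact disj (le_of_lt h1) hcP

end Pool.Agent.Helper51.CWS
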